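import Pool.Agent.W927.Gr.Haus

/-!
For which gauge functions does every set of positive Hausdorff measure have a subset of finite
positive measure?
-/

namespace Pool.Agent.Results.MP_b87f19_lc.GaugeDichotomy

open Set Filter Topology MeasureTheory Pool.Agent.W927.Gr
open scoped NNReal ENNReal

/-- (1) For a gauge function `f`, every `A ⊆ ℝ` with `H^f(A) > 0` has a subset of finite positive
`H^f`-measure if and only if `f(t)/t` does not tend to `∞` as `t → 0+`. (2) If `f(t)/t → ∞`, then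
there is a universally null set `A` with `H^f(A) = ∞` each of whose subsets has `H^f`-measure `0` or
`∞`. (3) The statement that every set of positive `H^f`-measure has a subset of finite positive
measure, for every gauge function `f`, is false. -/
theorem result :
    (∀ f : ℝ≥0 → ℝ≥0, IsGauge f →
      ((∀ A : Set ℝ, 0 < HM f A → ∃ A₀ ⊆ A, 0 < HM f A₀ ∧ HM f A₀ < ⊤) ↔
        ¬ Tendsto (fun t : ℝ≥0 => f t / t) (𝓝[>] 0) atTop)) ∧
    (∀ f : ℝ≥0 → ℝ≥0, IsGauge f → Tendsto (fun t : ℝ≥0 => f t / t) (𝓝[>] 0) atTop →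
      ∃ A : Set ℝ, UNull A ∧ HM f A = ⊤ ∧ ∀ A₀ ⊆ A, HM f A₀ = 0 ∨ HM f A₀ = ⊤) ∧
    ¬ (∀ f : ℝ≥0 → ℝ≥0, IsGauge f → ∀ A : Set ℝ, 0 < HM f A →
      ∃ A₀ ⊆ A, 0 < HM f A₀ ∧ HM f A₀ < ⊤) := by
  have key : ∀ f : ℝ≥0 → ℝ≥0, IsGauge f → Tendsto (fun t : ℝ≥0 => f t / t) (𝓝[>] 0) atTop →
      ¬ (∀ A : Set ℝ, 0 < HM f A → ∃ A₀ ⊆ A, 0 < HM f A₀ ∧ HM f A₀ < ⊤) := by
    intro f hf ht h
    obtain ⟨A, -, hA, hA'⟩ := exists_bad hf ht
    obtain ⟨A₀, h1, h2, h3⟩ := h A (by rw [hA]; exact ENNReal.zero_lt_top)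
    rcases hA' A₀ h1 with h4 | h4
    · rw [h4] at h2
      exact lt_irrefl _ h2
    · rw [h4] at h3
      exact lt_irrefl _ h3
  refine ⟨fun f hf => ⟨fun h ht => key f hf ht h, fun ht A hA => exists_good hf ht hA⟩,
    fun f hf ht => exists_bad hf ht, fun h => key _ sqrt_gauge sqrt_tendsto (h _ sqrt_gauge)⟩

end Pool.Agent.Results.MP_b87f19_lc.GaugeDichotomy
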